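import Pool.Agent.K1H22.SR.Stm2

/-!
# The paths with trivial label as a semilinear system
-/

set_option autoImplicit false

namespace Pool.Agent.K1H83.SR2

open Pool.Agent.K1H22.SR2

section

variable {T I M : Type} {K : I → Type} [∀ i, Group (K i)] [AddCommMonoid M]

/-- the edges with letters of the factor -/
def S1 (E : Finset (T × (Σ i, K i) × M × T)) (i : I) :
    Set (T × K i × (M × (T × I × T → ℕ)) × T) :=
  (fun y : T × K i × M × T => (y.1, y.2.1, (y.2.2.1, 0), y.2.2.2)) ''
    ((fun y : T × K i × M × T =>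
      ((y.1, ⟨i, y.2.1⟩, y.2.2.1, y.2.2.2) : T × (Σ i, K i) × M × T)) ⁻¹' (E : Set _))

/-- the jumps -/
def S2 [DecidableEq (T × I × T)] (K : I → Type) [∀ i, Group (K i)] (M : Type) [AddCommMonoid M]
    (i : I) : Set (T × K i × (M × (T × I × T → ℕ)) × T) :=
  Set.range fun z : T × I × T => (z.1, 1, (0, Pi.single z 1), z.2.2)

omit [∀ i, Group (K i)] in
lemma S1_fin (E : Finset (T × (Σ i, K i) × M × T)) (i : I) : (S1 E i).Finite := by
  unfold S1
  apply Set.Finite.image
  apply Set.Finite.preimage _ E.finite_toSet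
  apply Function.Injective.injOn
  rintro ⟨p, a, v, q⟩ ⟨p', a', v', q'⟩ h
  simp only [Prod.mk.injEq, Sigma.mk.injEq, heq_eq_eq, true_and] at h
  obtain ⟨rfl, rfl, rfl, rfl⟩ := h
  rfl

variable [Finite T] [Finite I] [DecidableEq (T × I × T)]

lemma S2_fin (i : I) : (S2 (T := T) K M i).Finite := Set.finite_range _

/-- the edges of the new graph -/
noncomputable def Ei (E : Finset (T × (Σ i, K i) × M × T)) (i : I) :
    Finset (T × K i × (M × (T × I × T → ℕ)) × T) :=
  ((S1_fin E i).union (S2_fin (T := T) (K := K) (M := M) i)).toFinset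

lemma mem_letter (E : Finset (T × (Σ i, K i) × M × T)) {i : I} {p q : T} {a : K i} {v : M}
    (h : (p, ⟨i, a⟩, v, q) ∈ E) : (p, a, (v, 0), q) ∈ Ei E i := by
  unfold Ei
  rw [Set.Finite.mem_toFinset]
  left
  exact ⟨(p, a, v, q), h, rfl⟩

lemma mem_jump (E : Finset (T × (Σ i, K i) × M × T)) (i : I) (z : T × I × T) :
    (z.1, 1, (0, Pi.single z 1), z.2.2) ∈ Ei E i := by
  unfold Ei
  rw [Set.Finite.mem_toFinset]
  right
  exact ⟨z, rfl⟩

lemma mem_cases (E : Finset (T × (Σ i, K i) × M × T)) (i : I)
    (x : T × K i × (M × (T × I × T → ℕ)) × T) (h : x ∈ Ei E i) :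
    (∃ p a v q, (p, ⟨i, a⟩, v, q) ∈ E ∧ x = (p, a, (v, 0), q)) ∨
      ∃ z : T × I × T, x = (z.1, 1, (0, Pi.single z 1), z.2.2) := by
  unfold Ei at h
  rw [Set.Finite.mem_toFinset] at h
  rcases h with ⟨⟨p, a, v, q⟩, h1, h2⟩ | ⟨z, hz⟩
  · left
    exact ⟨p, a, v, q, h1, h2.symm⟩
  · right
    exact ⟨z, hz.symm⟩

/-- the system -/
def LL (E : Finset (T × (Σ i, K i) × M × T)) (z : T × I × T) : Set (M × (T × I × T → ℕ)) :=
  {x | GW (Ei E z.2.1) z.1 z.2.2 1 x}

lemma to_ded (E : Finset (T × (Σ i, K i) × M × T)) {p q : T} {i : I} {g : K i} {v : M}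
    (h : Mi E p q i g v) : ∃ (x : M × (T × I × T → ℕ)) (l : List ((T × I × T) × M)),
      GW (Ei E i) p q g x ∧ (∀ z ∈ l, Ded (LL E) z.1 z.2) ∧
      (∀ j, (l.map Prod.fst).count j = x.2 j) ∧ v = x.1 + (l.map Prod.snd).sum := by
  induction h with
  | nil =>
    refine ⟨0, [], GW.nil, ?_, ?_, ?_⟩
    · intro z hz
      exact absurd hz (List.not_mem_nil)
    · intro j
      simp
    · simp
  | @letter p q r i a g v w hE _ ih =>
    obtain ⟨x, l, h1, h2, h3, h4⟩ := ih
    refine ⟨(v, 0) + x, l, GW.cons (mem_letter E hE) h1, h2, ?_, ?_⟩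
    · intro j
      rw [h3]
      simp
    · rw [h4]
      simp only [Prod.fst_add]
      rw [add_assoc]
  | @jump p q r i j g v w _ _ ih1 ih2 =>
    obtain ⟨x1, l1, a1, a2, a3, a4⟩ := ih1
    obtain ⟨x2, l2, b1, b2, b3, b4⟩ := ih2
    have hd : Ded (LL E) (p, j, q) v := by
      rw [a4]
      exact Ded.mk x1 l1 a1 a2 a3
    refine ⟨(0, Pi.single (p, j, q) 1) + x2, ((p, j, q), v) :: l2, ?_, ?_, ?_, ?_⟩
    · have h5 := GW.cons (mem_jump E i (p, j, q)) b1
      rw [one_mul] at h5
      exact h5
    · intro z hz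
      rcases List.mem_cons.1 hz with rfl | hz
      · exact hd
      · exact b2 z hz
    · intro z
      rw [List.map_cons, List.count_cons, b3]
      simp only [Prod.snd_add, Pi.add_apply, Pi.single_apply]
      rw [add_comm]
      congr 1
      by_cases hz : z = (p, j, q)
      · subst hz
        simp
      · rw [if_neg hz, if_neg]
        simp only [beq_iff_eq]
        exact fun h => hz h.symm
    · rw [b4, List.map_cons, List.sum_cons]
      simp only [Prod.fst_add, zero_add]
      rw [add_left_comm]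

lemma of_gw (E : Finset (T × (Σ i, K i) × M × T)) {p q : T} {i : I} {g : K i}
    {x : M × (T × I × T → ℕ)} (h : GW (Ei E i) p q g x) :
    ∀ l : List ((T × I × T) × M), (∀ z ∈ l, Mi E z.1.1 z.1.2.2 z.1.2.1 1 z.2) →
      (∀ j, (l.map Prod.fst).count j = x.2 j) → Mi E p q i g (x.1 + (l.map Prod.snd).sum) := by
  induction h with
  | nil =>
    intro l _ hc
    have hl : l = [] := by
      rcases l with _ | ⟨z, l⟩
      · rfl
      · exfalso
        have h1 := hc z.1
        simp at h1
    rw [hl]
    have h2 : ((0 : M × (T × I × T → ℕ)).1 + ((([] : List ((T × I × T) × M))).map Prod.snd).sum)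
        = 0 := by simp
    rw [h2]
    exact Mi.nil
  | @cons p p' q g h v w hE _ ih =>
    intro l hl hc
    rcases mem_cases E i _ hE with ⟨p1, a, v1, q1, h1, h2⟩ | ⟨z, hz⟩
    · simp only [Prod.mk.injEq] at h2
      obtain ⟨rfl, rfl, rfl, rfl⟩ := h2
      have h3 := ih l hl (by
        intro j
        rw [hc j]
        simp)
      have h4 := Mi.letter h1 h3
      simp only [Prod.fst_add]
      rw [add_assoc]
      exact h4
    · simp only [Prod.mk.injEq] at hz
      obtain ⟨rfl, rfl, rfl, rfl⟩ := hz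
      have h1 : z ∈ l.map Prod.fst := by
        rw [← List.count_pos_iff, hc z]
        simp
      obtain ⟨e, he, hez⟩ := List.mem_map.1 h1
      obtain ⟨s, t, rfl⟩ := List.append_of_mem he
      have h3 := ih (s ++ t) (by
        intro y hy
        apply hl
        rcases List.mem_append.1 hy with hy | hy
        · exact List.mem_append.2 (Or.inl hy)
        · exact List.mem_append.2 (Or.inr (List.mem_cons_of_mem _ hy))) (by
        intro j
        have h5 := hc j
        simp only [List.map_append, List.map_cons, List.count_append, List.count_cons,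
          Prod.snd_add, Pi.add_apply, Pi.single_apply, hez] at h5 ⊢
        by_cases hj : j = z
        · subst hj
          simp at h5
          omega
        · have h6 : ¬ (z == j) = true := by
            simp only [beq_iff_eq]
            exact fun h => hj h.symm
          rw [if_neg hj, if_neg h6] at h5
          omega)
      have h4 := hl e he
      rw [hez] at h4
      have h5 := Mi.jump h4 h3
      rw [one_mul]
      have h6 : ((0, Pi.single z 1) + w : M × (T × I × T → ℕ)).1 +
          ((s ++ e :: t).map Prod.snd).sum = e.2 + (w.1 + ((s ++ t).map Prod.snd).sum) := by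
        simp only [Prod.fst_add, zero_add, List.map_append, List.map_cons, List.sum_append,
          List.sum_cons]
        abel
      rw [h6]
      exact h5

lemma of_ded (E : Finset (T × (Σ i, K i) × M × T)) {z : T × I × T} {v : M}
    (h : Ded (LL E) z v) : Mi E z.1 z.2.2 z.2.1 1 v := by
  induction h with
  | mk x l hx _ hc ih => exact of_gw E hx l ih hc

end

theorem t_FIX (h : S_LFP) : S_FIX := by
  intro I _ K _ M T _ _ _ E hK p q i
  letI : DecidableEq (T × I × T) := Classical.decEq _
  have h1 : {v : M | Mi E p q i 1 v} = {v : M | Ded (LL E) (p, i, q) v} := by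
    ext v
    constructor
    · intro hv
      obtain ⟨x, l, a1, a2, a3, a4⟩ := to_ded E hv
      show Ded (LL E) (p, i, q) v
      rw [a4]
      exact Ded.mk x l a1 a2 a3
    · intro hv
      exact of_ded E hv
  rw [h1]
  exact h M (T × I × T) (LL E)
    (fun z => hK z.2.1 (M × (T × I × T → ℕ)) T (Ei E z.2.1) z.1 z.2.2) (p, i, q)

end Pool.Agent.K1H83.SR2
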